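import Pool.Agent.H57.EQ.Defs
import Pool.Agent.H58.CT.Targets

/-!
# Structures over edge-coloured graphs with free amalgamation, with equality: targets
-/

set_option autoImplicit false

namespace Pool.Agent.H57.EQ

open Pool.Agent.H68.BP Pool.Agent.H58.SF Pool.Agent.H53.GC Pool.Agent.H53.NR
open Function

/-! ### Universality -/

/-- systems of points with copied colours -/
def T_SYS : Prop :=
  ∀ (σ : Sig) (V X : Type) [LinearOrder V] (𝔸 : Str σ V) (M : ℕ) (c : V → V → Option X) (fr : X),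
    Stp 𝔸 M c fr → ∀ (W : Type) [LinearOrder W] [Finite W] (u : W → V) (r : W → W → Prop),
      (∀ n n', r n n' → r n' n) → ∃ e : W → V, StrictMono e ∧ ∀ n n', n ≠ n' →
        (r n n' → u n ≠ u n' → c (e n) (e n') = c (u n) (u n')) ∧
        (¬ (r n n' ∧ u n ≠ u n') → c (e n) (e n') = some fr)

/-- realization -/
def T_REA : Prop :=
  ∀ (σ : Sig) (V X : Type) [LinearOrder V] (𝔸 : Str σ V) (M : ℕ) (c : V → V → Option X) (fr : X),
    Stp 𝔸 M c fr → ∀ (W : Type) [Finite W] (q : W → W → Option X),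
      (∀ s : Fin M → W, ∃ v : Fin M → V, ∀ a b, c (v a) (v b) = q (s a) (s b)) →
      ∃ ψ : W → V, ∀ u w, c (ψ u) (ψ w) = q u w

/-- The injective part is a structure of the kind of the table GC. -/
def T_CPS : Prop :=
  ∀ (σ : Sig) (V X : Type) [LinearOrder V] (𝔸 : Str σ V) (M : ℕ) (c : V → V → Option X) (fr : X),
    Stp 𝔸 M c fr →
      Setup (injS 𝔸) M (cD c fr) (fun _ _ => fr) (fun _ => fr) (fun _ => fr)

/-- the finite Ramsey property of `(V, <, c)` -/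
def RamC {V X : Type} [LinearOrder V] (c : V → V → Option X) : Prop :=
  ∀ (n k : ℕ) (K : Finset V) (χ : (Fin n → V) → Fin k), ∃ g : V → V,
    (∀ x ∈ K, ∀ y ∈ K, x < y → g x < g y) ∧
    (∀ x ∈ K, ∀ y ∈ K, c (g x) (g y) = c x y) ∧
    ∀ x y : Fin n → V, (∀ i, x i ∈ K) → (∀ i, y i ∈ K) → Same c x y →
      χ (fun i => g (x i)) = χ (fun i => g (y i))

/-- Ramsey -/
def T_RAM : Prop :=
  ∀ (σ : Sig) (V X : Type) [LinearOrder V] (𝔸 : Str σ V) (M : ℕ) (c : V → V → Option X) (fr : X),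
    Stp 𝔸 M c fr → RamC c

/-- `h` depends only on types. -/
def TI {V X : Type} [LinearOrder V] (c : V → V → Option X)
    (h : (Fin 6 → V) → (Fin 6 → V) → Option X) : Prop :=
  ∀ v w v' w' : Fin 6 → V, Same c (Sum.elim v w) (Sum.elim v' w') → h v w = h v' w'

/-- canonization -/
def T_CAO : Prop :=
  ∀ (σ : Sig) (V X : Type) [LinearOrder V] (𝔸 : Str σ V) (M : ℕ) (c : V → V → Option X) (fr : X),
    Stp 𝔸 M c fr → RamC c → ∀ h, GoodMap 𝔸 M c h → ∃ h', GoodMap 𝔸 M c h' ∧ TI c h'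

/-- combinations -/
def T_GOD : Prop :=
  ∀ (σ : Sig) (V X : Type) [LinearOrder V] (𝔸 : Str σ V) (M : ℕ) (c : V → V → Option X) (fr : X),
    Stp 𝔸 M c fr → ∀ h, GoodMap 𝔸 M c h → TI c h → Olm 𝔸 c h

/-! ### The injective part -/

/-- Blocks which have no common vertices are not identified. (Helper44.) -/
def T_NC : Prop :=
  ∀ (σ : Sig) (V X : Type) [LinearOrder V] (𝔸 : Str σ V) (M : ℕ) (c : V → V → Option X) (fr : X),
    Stp 𝔸 M c fr → ∀ h, Olm 𝔸 c h → ¬ ConstHom 𝔸 →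
      ∀ z z' : Fin 6 → V, (∀ l l', z l ≠ z' l') → h z z' ≠ none

/-- `h'` is given by `h` on blocks. -/
def Blk {V X : Type} (c : V → V → Option X) (h h' : (Fin 6 → V) → (Fin 6 → V) → Option X) : Prop :=
  (∀ (r : Fin 3) (x y x' y' : V), h' (pat r x y) (pat r x' y') = h' (pat 0 x y) (pat 0 x' y')) ∧
  ∀ F : Finset (Fin 6 → V), ∃ e : (Fin 6 → V) → Fin 6 → V,
    (∀ v ∈ F, ∀ w ∈ F, v ≠ w → ∀ l l', e v l ≠ e w l') ∧
    (∀ v ∈ F, ∀ w ∈ F, ∀ l, v l ≠ w l → c (e v l) (e w l) = c (v l) (w l)) ∧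
    ∀ v ∈ F, ∀ w ∈ F, h' v w = h (e v) (e w)

/-- systems of blocks -/
def T_BKS : Prop :=
  ∀ (σ : Sig) (V X : Type) [LinearOrder V] (𝔸 : Str σ V) (M : ℕ) (c : V → V → Option X) (fr : X),
    Stp 𝔸 M c fr → ∀ h, Olm 𝔸 c h → ∃ h', Blk c h h'

/-- the map on pairs for the injective part -/
def T_BKG : Prop :=
  ∀ (σ : Sig) (V X : Type) [LinearOrder V] (𝔸 : Str σ V) (M : ℕ) (c : V → V → Option X) (fr : X),
    Stp 𝔸 M c fr → ∀ h h', Olm 𝔸 c h →
      (∀ z z' : Fin 6 → V, (∀ l l', z l ≠ z' l') → h z z' ≠ none) → Blk c h h' →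
      GoodMap (injS 𝔸) M (cD c fr) (fun v w => (h' v w).getD fr)

/-- cyclic families -/
def T_CYF : Prop :=
  ∀ (𝓔 X 𝓛 : Type) [Finite 𝓔] [Finite X] (R : 𝓛 → (𝓔 → X) → Prop), (¬ ∃ Z, Selects R Z) →
    ∀ p : ℕ, p.Prime → Nat.card X < p → ∃ F : 𝓔 → (ZMod p → X) → X, Fam R (ZMod p) F ∧
      ∀ e w, F e (fun i => w (i + 1)) = F e w

/-- cyclic polymorphisms -/
def T_CYC : Prop :=
  ∀ (σ : Sig) (Y : Type) [Finite Y] (𝕐 : Str σ Y), HasOlsak 𝕐 𝕐 →
    ∀ p : ℕ, p.Prime → Nat.card Y < p → ∃ f : (ZMod p → Y) → Y, IsPoly 𝕐 𝕐 f ∧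
      ∀ x, f (fun i => x (i + 1)) = f x

/-- cyclic functions for the injective part -/
def T_DDX : Prop :=
  ∀ (σ : Sig) (V X : Type) [LinearOrder V] (𝔸 : Str σ V) (M : ℕ) (c : V → V → Option X) (fr : X),
    Stp 𝔸 M c fr → ∀ (p : ℕ) (H : (ZMod p → X × Bool) → X × Bool),
      IsPoly (template (injS 𝔸) M (cD c fr)) (template (injS 𝔸) M (cD c fr)) H →
      (∀ x, H (fun i => x (i + 1)) = H x) → Dd 𝔸 c p (fun q => (H (fun i => (q i, false))).1)

/-! ### The equality part (helper44) -/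

/-- canonical binary injections for tournaments -/
def T_TOU : Prop :=
  ∀ (σ : Sig) (V X : Type) [LinearOrder V] (𝔸 : Str σ V) (M : ℕ) (c : V → V → Option X) (fr : X),
    Stp 𝔸 M c fr → ∀ h, Olm 𝔸 c h → ¬ ConstHom 𝔸 → DdAll 𝔸 c →
      ∃ t2 t10 t01, BV Tour 𝔸 c t2 t10 t01

/-! ### The template -/

/-- the binary polymorphism of the template -/
def gbin {X : Type} (t2 : Bool → X → X → X) (t10 t01 : X → X) :
    Option (X × Bool) → Option (X × Bool) → Option (X × Bool)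
  | none, none => none
  | some a, none => some (t10 a.1, a.2)
  | none, some b => some (t01 b.1, b.2)
  | some a, some b => some (t2 (a.2 == b.2) a.1 b.1, a.2)

/-- it is a polymorphism -/
def T_GTM : Prop :=
  ∀ (σ : Sig) (V X : Type) [LinearOrder V] (𝔸 : Str σ V) (M : ℕ) (c : V → V → Option X) (fr : X),
    Stp 𝔸 M c fr → ∀ t2 t10 t01, BV Tour 𝔸 c t2 t10 t01 →
      IsPoly (tpl 𝔸 M c) (tpl 𝔸 M c)
        (fun z : Fin 2 → Option (X × Bool) => gbin t2 t10 t01 (z 0) (z 1))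

/-- iteration -/
def T_ITR : Prop :=
  ∀ (σ : Sig) (Y : Type) (𝕐 : Str σ (Option Y)) (g : (Fin 2 → Option Y) → Option Y),
    IsPoly 𝕐 𝕐 g → (∀ z, g z = none ↔ ∀ i, z i = none) →
    ∀ (I : Type) [Finite I] [Nonempty I], ∃ G : (I → Option Y) → Option Y, IsPoly 𝕐 𝕐 G ∧
      ∀ z, G z = none ↔ ∀ i, z i = none

/-- the cyclic polymorphism of the template -/
def T_CYP : Prop :=
  ∀ (σ : Sig) (V X : Type) [LinearOrder V] (𝔸 : Str σ V) (M : ℕ) (c : V → V → Option X) (fr : X),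
    Stp 𝔸 M c fr → ∀ (p : ℕ) (f : (ZMod p → X) → X), p.Prime → 2 < p → Dd 𝔸 c p f →
      ∀ G : (ZMod p → Option (X × Bool)) → Option (X × Bool),
        IsPoly (tpl 𝔸 M c) (tpl 𝔸 M c) G → (∀ z, G z = none ↔ ∀ i, z i = none) →
        ∃ u : (ZMod p → Option (X × Bool)) → Option (X × Bool),
          IsPoly (tpl 𝔸 M c) (tpl 𝔸 M c) u ∧ ∀ z, u (fun i => z (i + 1)) = u z

/-- cyclic polymorphisms and `K₃` -/
def T_NKC : Prop :=
  ∀ (σ : Sig) (Y : Type) (𝕐 : Str σ Y) (p : ℕ) (f : (ZMod p → Y) → Y), p.Prime →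
    IsPoly 𝕐 𝕐 f → (∀ x, f (fun i => x (i + 1)) = f x) → ¬ PPConstructsK3 𝕐

/-! ### The reduction -/

/-- correctness of the reduction -/
def T_RE1 : Prop :=
  ∀ (σ : Sig) (V X : Type) [LinearOrder V] (𝔸 : Str σ V) (M : ℕ) (c : V → V → Option X) (fr : X),
    Stp 𝔸 M c fr → ∀ (n : ℕ) (𝕏 : Str σ (Fin n)), (∃ f, IsHom 𝕏 𝔸 f) ↔
      ∃ q : Fin n → Fin n → Option (X × Bool),
        ∀ (s : Option (Fin σ.m)) (y : Fin (arP σ M s) → Fin n), relP 𝕏 M s y →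
          ∃ (x : Fin (arP σ M s) → V) (T : V → V → Bool), relP 𝔸 M s x ∧ Tour T ∧
            ∀ a b, q (y a) (y b) = (c (x a) (x b)).map (fun t => (t, T (x a) (x b)))

/-- the reduction -/
def T_RED : Prop :=
  ∀ (σ : Sig) (V X : Type) [LinearOrder V] (𝔸 : Str σ V) (M : ℕ) (c : V → V → Option X) (fr : X),
    Stp 𝔸 M c fr → N793a5b8e.ManyOneReducible (CSP 𝔸) (CSP (tpl 𝔸 M c))

/-- the structure with one element and the same nonempty relations -/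
def one {σ : Sig} {V : Type} (𝔸 : Str σ V) : Str σ Unit := fun l _ => ∃ x, 𝔸 l x

/-- constant endomorphisms -/
def T_CON : Prop :=
  ∀ (σ : Sig) (V : Type) (𝔸 : Str σ V), Nonempty V → ConstHom 𝔸 →
    ¬ PPConstructsK3 (one 𝔸) ∧ N793a5b8e.ManyOneReducible (CSP 𝔸) (CSP (one 𝔸))

/-! ### Edge-coloured graphs with free amalgamation -/

/-- `𝔹` is an edge-coloured graph: its relations are binary, symmetric and irreflexive. -/
structure ECG {τ : Sig} {B : Type} (𝔹 : Str τ B) : Prop where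
  two : ∀ l, τ.ar l = 2
  symm : ∀ (l : Fin τ.m) (z : Fin (τ.ar l) → B), 𝔹 l z → 𝔹 l (fun i => z i.rev)
  irr : ∀ (l : Fin τ.m) (z : Fin (τ.ar l) → B), 𝔹 l z → Injective z

/-- the colours: the sets of relations which contain a pair of different elements -/
abbrev EC {τ : Sig} {B : Type} (𝔹 : Str τ B) : Type :=
  {t : Fin τ.m → Prop // ∃ x y : B, x ≠ y ∧ ∀ l, t l ↔ 𝔹 l (fun i => if (i : ℕ) = 0 then x else y)}

open Classical in
/-- the colouring -/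
noncomputable def ec {τ : Sig} {B : Type} (𝔹 : Str τ B) (x y : B) : Option (EC 𝔹) :=
  if h : x = y then none
  else some ⟨fun l => 𝔹 l (fun i => if (i : ℕ) = 0 then x else y), x, y, h, fun _ => Iff.rfl⟩

/-- the colouring of an edge-coloured graph -/
def T_ECC : Prop :=
  ∀ (τ : Sig) (B : Type) (𝔹 : Str τ B), ECG 𝔹 → Col (ec 𝔹)

/-- the free colour -/
def T_ECF : Prop :=
  ∀ (τ : Sig) (B : Type) (𝔹 : Str τ B) (M : ℕ), ECG 𝔹 → Nonempty B → FreelyBounded 𝔹 M →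
    ∃ fr : EC 𝔹, ∀ l, ¬ fr.1 l

/-- universality of an edge-coloured graph -/
def T_ECU : Prop :=
  ∀ (τ : Sig) (B : Type) (𝔹 : Str τ B) (M : ℕ) (en : B → ℕ) (hen : Injective en), ECG 𝔹 →
    Nonempty B → Homogeneous 𝔹 → FreelyBounded 𝔹 M → ∀ fr : EC 𝔹, (∀ l, ¬ fr.1 l) →
    @Uni B (EC 𝔹) (LinearOrder.lift' en hen) (ec 𝔹) fr M

/-- invariance of the relations -/
def T_ECI : Prop :=
  ∀ (τ σ : Sig) (B : Type) (𝔹 : Str τ B) (𝔸 : Str σ B), ECG 𝔹 → Homogeneous 𝔹 →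
    (∀ g : B ≃ B, IsAut 𝔹 g → IsAut 𝔸 g) → TyInv 𝔸 (ec 𝔹)

/-- finitely many orbits -/
def T_OLG : Prop :=
  ∀ (τ σ : Sig) (B : Type) (𝔹 : Str τ B) (𝔸 : Str σ B), Countable B → Homogeneous 𝔹 →
    (∀ g : B ≃ B, IsAut 𝔹 g → IsAut 𝔸 g) → Oligo 𝔸

end Pool.Agent.H57.EQ
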