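import Pool.Agent.H57.EQ.PMK
import Pool.Agent.H62.EQ.KP2

/-!
Row PLI of the board `eqd_modules`: logarithmic integrability.
-/

namespace Pool.Agent.H57.EQ

open Pool.Agent.H92.EQ Pool.Agent.H62.EQ
open scoped BigOperators ComplexConjugate ContDiff Topology
open MeasureTheory

noncomputable section

theorem eval_smul_hom {N D : ℕ} {φ : MvPolynomial (Fin N) ℂ} (h : φ.IsHomogeneous D) (l : ℂ)
    (z : Fin N → ℂ) : MvPolynomial.eval (l • z) φ = l ^ D * MvPolynomial.eval z φ := by
  rw [MvPolynomial.eval_eq', MvPolynomial.eval_eq', Finset.mul_sum]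
  refine Finset.sum_congr rfl fun d hd => ?_
  have h1 : d.degree = D := by
    by_contra h0
    exact (MvPolynomial.mem_support_iff.mp hd) (h.coeff_eq_zero h0)
  have h2 : ∑ i, d i = D := by
    rw [← h1, Finsupp.degree_eq_sum]
  have h3 : ∏ i, (l • z) i ^ d i = l ^ D * ∏ i, z i ^ d i := by
    simp only [Pi.smul_apply, smul_eq_mul, mul_pow, Finset.prod_mul_distrib]
    rw [Finset.prod_pow_eq_pow_sum, h2]
  rw [h3]
  ring

/-- the zeros of a nonzero homogeneous polynomial on a line -/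
theorem line_zeros {N m : ℕ} (h : MvPolynomial (Fin N) ℂ) (hh : h.IsHomogeneous m)
    (w : Fin N → ℂ) (hw : MvPolynomial.eval w h ≠ 0) (z : Fin N → ℂ) :
    {t : ℂ | MvPolynomial.eval (z + t • w) h = 0}.Finite := by
  obtain ⟨q, hq⟩ : ∃ q : Polynomial ℂ, ∀ s : ℂ, q.eval s = MvPolynomial.eval (s • z + w) h := by
    refine ⟨MvPolynomial.aeval (fun i => Polynomial.X * Polynomial.C (z i) +
      Polynomial.C (w i)) h, fun s => ?_⟩
    have h1 := MvPolynomial.map_aeval (fun i => Polynomial.X * Polynomial.C (z i) +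
      Polynomial.C (w i)) (Polynomial.evalRingHom s) h
    rw [Polynomial.coe_evalRingHom] at h1
    rw [h1]
    have h2 : ((Polynomial.evalRingHom s).comp (algebraMap ℂ (Polynomial ℂ))) =
        RingHom.id ℂ := by
      ext x
      simp
    rw [h2]
    show MvPolynomial.eval₂ _ _ h = MvPolynomial.eval₂ _ _ h
    congr 1
    funext i
    simp
    ring
  have hq0 : q ≠ 0 := by
    intro h0
    have := hq 0
    rw [h0, Polynomial.eval_zero, zero_smul, zero_add] at this
    exact hw this.symm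
  have hfin : {s : ℂ | q.eval s = 0}.Finite := by
    have := q.roots.toFinset.finite_toSet
    refine this.subset ?_
    intro s hs
    rw [Finset.mem_coe, Multiset.mem_toFinset, Polynomial.mem_roots hq0]
    exact hs
  have hsub : {t : ℂ | MvPolynomial.eval (z + t • w) h = 0} ⊆
      {0} ∪ (fun t : ℂ => t⁻¹) ⁻¹' {s : ℂ | q.eval s = 0} := by
    intro t ht
    by_cases h0 : t = 0
    · left; exact h0
    · right
      show q.eval t⁻¹ = 0
      rw [hq]
      have h3 : z + t • w = t • (t⁻¹ • z + w) := by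
        rw [smul_add, smul_smul, mul_inv_cancel₀ h0, one_smul]
      have ht' : MvPolynomial.eval (z + t • w) h = 0 := ht
      rw [h3, eval_smul_hom hh] at ht'
      exact (mul_eq_zero.1 ht').resolve_left (pow_ne_zero _ h0)
  refine (Set.Finite.union (Set.finite_singleton 0) ?_).subset hsub
  exact hfin.preimage (inv_injective.injOn)

/-- the zero set of a nonzero homogeneous polynomial is a null set -/
theorem zeros_null {N m : ℕ} (h : MvPolynomial (Fin N) ℂ) (hh : h.IsHomogeneous m)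
    (h0 : h ≠ 0) : ∀ᵐ z : Fin N → ℂ, MvPolynomial.eval z h ≠ 0 := by
  obtain ⟨w, hw⟩ : ∃ w : Fin N → ℂ, MvPolynomial.eval w h ≠ 0 := by
    by_contra hcon
    push Not at hcon
    apply h0
    apply MvPolynomial.funext
    intro x
    rw [hcon x, map_zero]
  have hcont : Continuous (fun p : (Fin N → ℂ) × ℂ =>
      MvPolynomial.eval (p.1 + p.2 • w) h) := by
    exact (MvPolynomial.continuous_eval h).comp (by fun_prop)
  have hcont' : Continuous (fun p : ℂ × (Fin N → ℂ) =>
      MvPolynomial.eval (p.2 + p.1 • w) h) := by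
    exact (MvPolynomial.continuous_eval h).comp (by fun_prop)
  have hm : MeasurableSet {p : (Fin N → ℂ) × ℂ | MvPolynomial.eval (p.1 + p.2 • w) h = 0} :=
    (isClosed_singleton.preimage hcont).measurableSet
  have hm' : MeasurableSet {p : ℂ × (Fin N → ℂ) | MvPolynomial.eval (p.2 + p.1 • w) h = 0} :=
    (isClosed_singleton.preimage hcont').measurableSet
  have h1 : (volume : Measure ((Fin N → ℂ) × ℂ))
      {p : (Fin N → ℂ) × ℂ | MvPolynomial.eval (p.1 + p.2 • w) h = 0} = 0 := by
    rw [Measure.volume_eq_prod, Measure.measure_prod_null hm]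
    filter_upwards with z
    exact (line_zeros h hh w hw z).measure_zero _
  have h2 : (volume : Measure (ℂ × (Fin N → ℂ)))
      {p : ℂ × (Fin N → ℂ) | MvPolynomial.eval (p.2 + p.1 • w) h = 0} = 0 := by
    have h3 := (Measure.measurePreserving_swap (μ := (volume : Measure ℂ))
      (ν := (volume : Measure (Fin N → ℂ)))).measure_preimage hm.nullMeasurableSet
    rw [Measure.volume_eq_prod] at h1 ⊢
    rw [h1] at h3
    exact h3
  rw [Measure.volume_eq_prod, Measure.measure_prod_null hm'] at h2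
  obtain ⟨t, ht⟩ := h2.exists
  have h4 : (volume : Measure (Fin N → ℂ))
      ((fun z => z + t • w) ⁻¹' {z | MvPolynomial.eval z h = 0}) = 0 := ht
  rw [measure_preimage_add_right] at h4
  rw [ae_iff]
  simpa using h4

theorem nsq_pos' {N : ℕ} {z : Fin N → ℂ} (hz : z ≠ 0) : 0 < nsq z := by
  unfold nsq
  obtain ⟨i, hi⟩ : ∃ i, z i ≠ 0 := by
    by_contra hcon
    push Not at hcon
    exact hz (funext hcon)
  refine lt_of_lt_of_le (pow_pos (norm_pos_iff.2 hi) 2)
    (Finset.single_le_sum (f := fun i => ‖z i‖ ^ 2) (fun _ _ => sq_nonneg _)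
    (Finset.mem_univ i))

theorem phi_eq {N m : ℕ} (h : MvPolynomial (Fin N) ℂ) (hm : 1 ≤ m) (r : ℝ) (hr : 0 < r)
    (z : Fin N → ℂ) (hz : z ≠ 0) : -(1 / 2) * Real.log (nv h m z ^ 2 + r ^ 2) =
      m * (ell z - we h m r z) := by
  have hn := nsq_pos' hz
  have hn1 : (nrm z) ^ 2 = nsq z := Real.sq_sqrt hn.le
  have hA : 0 < ‖MvPolynomial.eval z h‖ ^ 2 + r ^ 2 * nsq z ^ m := by positivity
  have e1 : nv h m z ^ 2 + r ^ 2 =
      (‖MvPolynomial.eval z h‖ ^ 2 + r ^ 2 * nsq z ^ m) / nsq z ^ m := by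
    unfold nv
    rw [div_pow, ← pow_mul, mul_comm m 2, pow_mul, hn1]
    field_simp
  have hm0 : (m : ℝ) ≠ 0 := by exact_mod_cast (by omega : m ≠ 0)
  rw [e1, Real.log_div hA.ne' (pow_pos hn m).ne', Real.log_pow]
  unfold ell we
  field_simp
  ring

theorem log_le {N m : ℕ} (h : MvPolynomial (Fin N) ℂ) (r : ℝ)
    (z : Fin N → ℂ) (hz : 0 < nv h m z) :
    -(1 / 2) * Real.log (nv h m z ^ 2 + r ^ 2) ≤ |Real.log (nv h m z)| := by
  have h1 : Real.log (nv h m z ^ 2) ≤ Real.log (nv h m z ^ 2 + r ^ 2) :=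
    Real.log_le_log (by positivity) (by nlinarith [sq_nonneg r])
  rw [Real.log_pow] at h1
  have h2 := neg_abs_le (Real.log (nv h m z))
  have h3 := le_abs_self (Real.log (nv h m z))
  push_cast at h1
  linarith [neg_le_abs (Real.log (nv h m z))]

theorem om0_bdd (hS5 : T_S5) (hL6 : T_L6) (hD7 : T_D7) (hL3 : T_L3) (hL1 : T_L1) (k : ℕ) :
    ∃ B : ℝ, 0 ≤ B ∧ ∀ z : Fin (k + 1) → ℂ, z ≠ 0 → 0 ≤ ell z →
      Q (om (k + 1) 0) (fun _ : Fin k => ell) z ≤ B := by
  have hP : ProjForm (om (k + 1) 0) := (hD7 (k + 1) 0).1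
  have hell : LH 1 (ell : (Fin (k + 1) → ℂ) → ℝ) := (hL1 (k + 1) 1 1 1 1 ell ell).2.2.1
    (hL3 (k + 1)).1
  obtain ⟨hc, hh, -⟩ := hS5 (k + 1) 0 k (om (k + 1) 0) (fun _ => ell) (fun _ => 1) (by omega)
    hP (fun _ => hell)
  have hcn : Continuous (nsq : (Fin (k + 1) → ℂ) → ℝ) := by
    unfold nsq; fun_prop
  obtain ⟨B, hB0, hB⟩ := (hL6 (k + 1)).1
    (fun z => Q (om (k + 1) 0) (fun _ : Fin k => ell) z * nsq z ^ (k + 1))
    (hc.mul ((hcn.pow _).continuousOn)) (by
      intro r z hr hz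
      have hr' : (r : ℂ) ≠ 0 := by exact_mod_cast hr.ne'
      rw [hh (r : ℂ) z hr' hz]
      have e1 : nsq ((r : ℂ) • z) = r ^ 2 * nsq z := by
        unfold nsq
        rw [Finset.mul_sum]
        refine Finset.sum_congr rfl fun i _ => ?_
        rw [Pi.smul_apply, smul_eq_mul, norm_mul, Complex.norm_real, mul_pow,
          Real.norm_eq_abs, sq_abs]
      rw [e1, Complex.norm_real, Real.norm_eq_abs, abs_of_pos hr, mul_pow, ← pow_mul]
      have hr2 : r ^ (2 * (k + 1)) ≠ 0 := pow_ne_zero _ hr.ne'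
      field_simp)
  refine ⟨B, hB0.le, fun z hz hl => ?_⟩
  have hn := nsq_pos' hz
  have h1 : 1 ≤ nsq z := by
    unfold ell at hl
    have : 0 ≤ Real.log (nsq z) := by linarith
    by_contra hcon
    push Not at hcon
    have := Real.log_neg hn hcon
    linarith
  have h2 := hB z hz
  have h3 : 1 ≤ nsq z ^ (k + 1) := one_le_pow₀ h1
  rcases le_total 0 (Q (om (k + 1) 0) (fun _ : Fin k => ell) z) with h4 | h4
  · have h5 := (le_abs_self _).trans h2
    have h6 : Q (om (k + 1) 0) (fun _ : Fin k => ell) z * 1 ≤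
        Q (om (k + 1) 0) (fun _ : Fin k => ell) z * nsq z ^ (k + 1) :=
      mul_le_mul_of_nonneg_left h3 h4
    linarith
  · exact h4.trans hB0.le

theorem pf_PLI (hPLL : T_PLL) (hKA : T_KA) (hKE : T_KE) (hKH : T_KH) (hD7 : T_D7)
    (hL5 : T_L5) (hP1 : T_P1) (hP3 : T_P3) (hS5 : T_S5) (hL6 : T_L6) (hL3 : T_L3)
    (hL1 : T_L1) : T_PLI := by
  intro k d m F h hd hF hh hm h0
  obtain ⟨hG, -, B, hB0, hB, -⟩ := hKA (k + 1) d F hd hF
  have hell : Pot (ell : (Fin (k + 1) → ℂ) → ℝ) := (hL3 (k + 1)).1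
  have hellLH : LH 1 (ell : (Fin (k + 1) → ℂ) → ℝ) :=
    (hL1 (k + 1) 1 1 1 1 ell ell).2.2.1 hell
  have hm0 : (0 : ℝ) ≤ m := Nat.cast_nonneg m
  obtain ⟨D, hD0, hD⟩ := om0_bdd hS5 hL6 hD7 hL3 hL1 k
  have hom : ∀ p, ProjForm (om (k + 1) p) := fun p => (hD7 (k + 1) p).1
  obtain ⟨C0, hC0⟩ : ∃ C0 : ℝ, C0 = ∫ z in {z : Fin (k + 1) → ℂ | 0 ≤ ell z ∧ ell z < 1},
    |Real.log (nv h m z)| * D := ⟨_, rfl⟩
  refine ⟨C0 + m * (2 * k * B * mass k (om (k + 1) 0)), fun j r hr hr1 => ?_⟩
  have hw : Pot (we h m r) := hL5 (k + 1) m h r hm hh hr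
  have hH0 : Hom0 (fun z => ell z - we h m r z) :=
    ⟨hell.smooth.sub hw.smooth, fun l z hl hz => by
      rw [hell.loghom l z hl hz, hw.loghom l z hl hz]
      ring⟩
  -- reduction to `om 0`
  have habs : ∀ (p q : ℕ) (u : Fin q → (Fin (k + 1) → ℂ) → ℝ), (∀ i, Pot (u i)) →
      p + (q + 1) + 1 = k + 1 →
      pair (fun z => ell z - we h m r z) (Sn F d j (om (k + 1) (p + 1))) u =
        pair (fun z => ell z - we h m r z) (Sn F d j (om (k + 1) p))
          (Fin.cons (α := fun _ => (Fin (k + 1) → ℂ) → ℝ) (Gn F d j) u) := by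
    intro p q u hu hpq
    have h1 := (hKH (k + 1) d p q j 0 F (om (k + 1) p) ell (fun z => ell z - we h m r z) u hd
      hpq hF (hom p) hell hu hH0).2.2
    rw [Sn_zero, Nat.zero_add] at h1
    exact h1.symm
  have main : ∀ p q : ℕ, p + q = k →
      pair (fun z => ell z - we h m r z) (Sn F d j (om (k + 1) p)) (fun _ : Fin q => Gn F d j) =
      pair (fun z => ell z - we h m r z) (om (k + 1) 0) (fun _ : Fin k => Gn F d j) := by
    intro p
    induction p with
    | zero =>
      intro q hq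
      obtain rfl : q = k := by omega
      rw [Sn_om_zero]
    | succ p ih =>
      intro q hq
      rw [habs p q _ (fun _ => hG j) (by omega)]
      have h2 : (Fin.cons (α := fun _ => (Fin (k + 1) → ℂ) → ℝ) (Gn F d j)
          (fun _ : Fin q => Gn F d j) : Fin (q + 1) → (Fin (k + 1) → ℂ) → ℝ) =
          fun _ => Gn F d j := by
        funext i
        exact Fin.cases rfl (fun _ => rfl) i
      rw [h2]
      exact ih (q + 1) (by omega)
  have hE : EE F d j (om (k + 1) k) (fun z => -(1 / 2) * Real.log (nv h m z ^ 2 + r ^ 2)) =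
      m * pair (fun z => ell z - we h m r z) (om (k + 1) 0) (fun _ : Fin k => Gn F d j) := by
    have h3 : EE F d j (om (k + 1) k) (fun z => -(1 / 2) * Real.log (nv h m z ^ 2 + r ^ 2)) =
        pair (fun z => m * (ell z - we h m r z)) (Sn F d j (om (k + 1) k))
          (fun _ : Fin 0 => ell) := by
      unfold EE
      apply pair_congr
      intro z hz
      rw [phi_eq h hm r hr z hz]
    rw [h3, pair_const_mul]
    congr 1
    have h4 : (fun _ : Fin 0 => (ell : (Fin (k + 1) → ℂ) → ℝ)) =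
        (fun _ : Fin 0 => Gn F d j) := by
      funext i; exact i.elim0
    rw [h4]
    exact main k 0 (by omega)
  have hke := hKE (k + 1) 0 k (om (k + 1) 0) (we h m r) ell (Gn F d j) ell B (by omega) (hom 0)
    hw hell (hG j) hell (fun z hz => hB j z hz)
  have h5 : pair (fun z => ell z - we h m r z) (om (k + 1) 0) (fun _ : Fin k => Gn F d j) ≤
      pair (fun z => ell z - we h m r z) (om (k + 1) 0) (fun _ : Fin k => ell) +
        2 * k * B * mass k (om (k + 1) 0) := by
    have := (abs_le.1 hke).1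
    linarith
  have h6 : m * pair (fun z => ell z - we h m r z) (om (k + 1) 0) (fun _ : Fin k => ell) ≤
      C0 := by
    rw [← pair_const_mul, hC0]
    unfold pair Iint
    have hI := (hP1 (k + 1) 0 k (om (k + 1) 0) (fun _ => ell) (fun _ => 1) (by omega) (hom 0)
      (fun _ => hellLH)).2 (fun z => m * (ell z - we h m r z))
      (continuousOn_const.mul hH0.smooth.continuousOn)
    refine integral_mono_ae hI ?_ ?_
    · exact ((hPLL (k + 1) m h (Nat.succ_pos k) hh h0).abs).mul_const D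
    · have hmeas : MeasurableSet {z : Fin (k + 1) → ℂ | 0 ≤ ell z ∧ ell z < 1} := by
        have hcn : Continuous (nsq : (Fin (k + 1) → ℂ) → ℝ) := by
          unfold nsq; fun_prop
        have hme : Measurable (ell : (Fin (k + 1) → ℂ) → ℝ) := by
          unfold ell
          exact (Real.measurable_log.comp hcn.measurable).const_mul _
        exact (measurableSet_le measurable_const hme).inter
          (measurableSet_lt hme measurable_const)
      rw [Filter.EventuallyLE, ae_restrict_iff' hmeas]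
      filter_upwards [ae_ne, zeros_null h hh h0] with z hz hz0 hzs
      have hQ0 := (hP3 (k + 1) 0 k (om (k + 1) 0) (fun _ => ell) (by omega) (hom 0)
        (fun _ => hell)).1 z hz
      have hQ1 := hD z hz hzs.1
      have hnv : 0 < nv h m z := by
        unfold nv nrm
        have := nsq_pos' hz
        have h7 : 0 < Real.sqrt (nsq z) := Real.sqrt_pos.2 this
        have h8 : 0 < ‖MvPolynomial.eval z h‖ := norm_pos_iff.2 hz0
        positivity
      have h9 := log_le h r z hnv
      rw [phi_eq h hm r hr z hz] at h9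
      show m * (ell z - we h m r z) * Q (om (k + 1) 0) (fun _ : Fin k => ell) z ≤
        |Real.log (nv h m z)| * D
      calc m * (ell z - we h m r z) * Q (om (k + 1) 0) (fun _ : Fin k => ell) z
          ≤ |Real.log (nv h m z)| * Q (om (k + 1) 0) (fun _ : Fin k => ell) z :=
            mul_le_mul_of_nonneg_right h9 hQ0
        _ ≤ |Real.log (nv h m z)| * D := mul_le_mul_of_nonneg_left hQ1 (abs_nonneg _)
  rw [hE]
  have h7 := mul_le_mul_of_nonneg_left h5 hm0
  rw [mul_add] at h7
  linarith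

end

end Pool.Agent.H57.EQ
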