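import Pool.Agent.H57.EQ.Targets
import Pool.Agent.H53.GC.Asm

/-!
# Structures over edge-coloured graphs with free amalgamation, with equality: assembly
-/

set_option autoImplicit false

namespace Pool.Agent.H57.EQ

open Pool.Agent.H68.BP Pool.Agent.H58.SF Pool.Agent.H53.GC Pool.Agent.H53.NR
open Function

/-- an Olšák polymorphism of the template of the injective part -/
theorem asm_olsak (hCOR : T_COR) (hOMG : T_OMG) (hFIN : T_FIN) (hOLF : T_OLF) (hGEO : T_GEO)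
    (hMXV : T_MXV) (hMXP : T_MXP) (hLIM : T_LIM) (hCA2 : T_CA2) (hNR3 : T_NR3) (hCPS : T_CPS)
    {σ : Sig} {V X : Type} [LinearOrder V] {𝔸 : Str σ V} {M : ℕ} {c : V → V → Option X} {fr : X}
    (hs : Stp 𝔸 M c fr) {h : (Fin 6 → V) → (Fin 6 → V) → X}
    (hh : GoodMap (injS 𝔸) M (cD c fr) h) :
    HasOlsak (template (injS 𝔸) M (cD c fr)) (template (injS 𝔸) M (cD c fr)) := by
  have hS := hCPS σ V X 𝔸 M c fr hs
  have := hS.fin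
  have hX : Nonempty X := ⟨fr⟩
  obtain ⟨h', hh', ht⟩ := hCA2 _ V X (injS 𝔸) M (cD c fr) hS.fin (hNR3 V X _ _ M hS.univ)
    hS.split h hh
  refine hLIM _ V X (injS 𝔸) M (cD c fr) hS.fin hX fun k => ?_
  exact hOLF _ _ _ _ (no_selects hCOR hOMG hFIN
    (hGEO _ V X (injS 𝔸) M (cD c fr) _ _ k hS.two hS.typed)
    (hMXV _ V X (injS 𝔸) M (cD c fr) _ _ _ h' hS hh' ht k)
    (hMXP _ V X (injS 𝔸) M (cD c fr) _ _ _ h' hS hh' ht k))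

/-- cyclic functions for all large primes -/
theorem asm_dd (hCYC : T_CYC) (hDDX : T_DDX)
    {σ : Sig} {V X : Type} [LinearOrder V] {𝔸 : Str σ V} {M : ℕ} {c : V → V → Option X} {fr : X}
    (hs : Stp 𝔸 M c fr)
    (hO : HasOlsak (template (injS 𝔸) M (cD c fr)) (template (injS 𝔸) M (cD c fr))) :
    DdAll 𝔸 c := by
  have := hs.fin
  refine ⟨Nat.card (X × Bool), fun p hp hN => ?_⟩
  obtain ⟨H, h1, h2⟩ := hCYC _ _ _ hO p hp hN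
  exact ⟨_, hDDX σ V X 𝔸 M c fr hs p H h1 h2⟩

/-- The theorem for coloured linear orders. -/
theorem asm_order (hPOW : T_POW) (hRAM : T_RAM) (hCAO : T_CAO) (hGOD : T_GOD) (hNC : T_NC)
    (hBKS : T_BKS) (hBKG : T_BKG)
    (hOLI : ∀ (σ : Sig) (V X : Type) [LinearOrder V] (𝔸 : Str σ V) (M : ℕ)
      (c : V → V → Option X) (fr : X), Stp 𝔸 M c fr → ∀ h, GoodMap (injS 𝔸) M (cD c fr) h →
      HasOlsak (template (injS 𝔸) M (cD c fr)) (template (injS 𝔸) M (cD c fr)))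
    (hCYC : T_CYC) (hDDX : T_DDX) (hTOU : T_TOU) (hGTM : T_GTM) (hITR : T_ITR) (hCYP : T_CYP)
    (hNKC : T_NKC) (hRED : T_RED)
    {σ : Sig} {V X : Type} [LinearOrder V] {𝔸 : Str σ V} {M : ℕ} {c : V → V → Option X} {fr : X}
    (hs : Stp 𝔸 M c fr) (hol : Oligo 𝔸) :
    PPConstructsK3 𝔸 ∨ ConstHom 𝔸 ∨ (¬ PPConstructsK3 (tpl 𝔸 M c) ∧
      N793a5b8e.ManyOneReducible (CSP 𝔸) (CSP (tpl 𝔸 M c))) := by
  have := hs.fin
  have hX : Nonempty X := ⟨fr⟩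
  obtain ⟨x₀, -, -⟩ := hs.col.surj fr
  have hV : Nonempty V := ⟨x₀⟩
  by_cases hK : PPConstructsK3 𝔸
  · exact Or.inl hK
  by_cases hC : ConstHom 𝔸
  · exact Or.inr (Or.inl hC)
  refine Or.inr (Or.inr ⟨?_, hRED σ V X 𝔸 M c fr hs⟩)
  obtain ⟨h₀, hh₀⟩ := hPOW σ V (Option X) 𝔸 M c hs.cnt hV inferInstance hol hK
  obtain ⟨h, hh, ht⟩ := hCAO σ V X 𝔸 M c fr hs (hRAM σ V X 𝔸 M c fr hs) h₀ hh₀
  have hO : Olm 𝔸 c h := hGOD σ V X 𝔸 M c fr hs h hh ht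
  obtain ⟨h', hb⟩ := hBKS σ V X 𝔸 M c fr hs h hO
  have hG := hBKG σ V X 𝔸 M c fr hs h h' hO (hNC σ V X 𝔸 M c fr hs h hO hC) hb
  have hD : DdAll 𝔸 c := asm_dd hCYC hDDX hs (hOLI σ V X 𝔸 M c fr hs _ hG)
  obtain ⟨t2, t10, t01, hT⟩ := hTOU σ V X 𝔸 M c fr hs h hO hC hD
  obtain ⟨N, hN⟩ := hD
  obtain ⟨p, hp1, hp2⟩ := Nat.exists_infinite_primes (N + 3)
  obtain ⟨f, hf⟩ := hN p hp2 (by omega)
  have : Fact p.Prime := ⟨hp2⟩
  have : NeZero p := ⟨hp2.ne_zero⟩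
  obtain ⟨G, hG1, hG2⟩ := hITR _ _ (tpl 𝔸 M c) _ (hGTM σ V X 𝔸 M c fr hs t2 t10 t01 hT) (by
    intro z
    have key : ∀ a b : Option (X × Bool), gbin t2 t10 t01 a b = none ↔ a = none ∧ b = none := by
      rintro (_ | a) (_ | b) <;> simp [gbin]
    rw [key]
    constructor
    · rintro ⟨h0, h1⟩ i
      fin_cases i
      · exact h0
      · exact h1
    · exact fun h => ⟨h 0, h 1⟩) (ZMod p)
  obtain ⟨u, hu1, hu2⟩ := hCYP σ V X 𝔸 M c fr hs p f hp2 (by omega) hf G hG1 hG2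
  exact hNKC _ _ _ p u hp2 hu1 hu2

theorem fb_mono {τ : Sig} {B : Type} {𝔹 : Str τ B} {M M' : ℕ} (h : FreelyBounded 𝔹 M)
    (hM : M ≤ M') : FreelyBounded 𝔹 M' :=
  fun n 𝕏 hX => h n 𝕏 fun m s hm => hX m s (hm.trans hM)

/-- The theorem for edge-coloured graphs with free amalgamation. -/
theorem asm_ecg (hFB1 : T_FB1) (hECC : T_ECC) (hECF : T_ECF) (hECU : T_ECU) (hECI : T_ECI)
    (hOLG : T_OLG) (hCON : T_CON)
    (hmain : ∀ (σ : Sig) (V X : Type) [LinearOrder V] (𝔸 : Str σ V) (M : ℕ)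
      (c : V → V → Option X) (fr : X), Stp 𝔸 M c fr → Oligo 𝔸 →
      PPConstructsK3 𝔸 ∨ ConstHom 𝔸 ∨ (¬ PPConstructsK3 (tpl 𝔸 M c) ∧
        N793a5b8e.ManyOneReducible (CSP 𝔸) (CSP (tpl 𝔸 M c))))
    (τ σ : Sig) (B : Type) [Countable B] [Nonempty B] (𝔹 : Str τ B) (𝔸 : Str σ B)
    (hE : ECG 𝔹) (hH : Homogeneous 𝔹) (hF : FinitelyBounded 𝔹) (hA : FreeAmalgamation 𝔹)
    (hS : ∀ g : B ≃ B, IsAut 𝔹 g → IsAut 𝔸 g) :
    PPConstructsK3 𝔸 ∨ ∃ (σ' : Sig) (Y : Type) (_ : Finite Y) (𝕋 : Str σ' Y),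
      ¬ PPConstructsK3 𝕋 ∧ N793a5b8e.ManyOneReducible (CSP 𝔸) (CSP 𝕋) := by
  obtain ⟨M₀, -, hFB₀⟩ := hFB1 τ B 𝔹 hF hA
  let M := max M₀ 3
  have hFB : FreelyBounded 𝔹 M := fb_mono hFB₀ (le_max_left _ _)
  obtain ⟨fr, hfr⟩ := hECF τ B 𝔹 M hE inferInstance hFB
  obtain ⟨en, hen⟩ := exists_injective_nat B
  letI : LinearOrder B := LinearOrder.lift' en hen
  have hX : Finite (EC 𝔹) := inferInstance
  rcases hmain σ B (EC 𝔹) 𝔸 M (ec 𝔹) fr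
    ⟨hX, inferInstance, le_max_right _ _, hECC τ B 𝔹 hE,
      hECU τ B 𝔹 M en hen hE inferInstance hH hFB fr hfr, hECI τ σ B 𝔹 𝔸 hE hH hS⟩
    (hOLG τ σ B 𝔹 𝔸 inferInstance hH hS) with h | h | h
  · exact Or.inl h
  · obtain ⟨h1, h2⟩ := hCON σ B 𝔸 inferInstance h
    exact Or.inr ⟨_, Unit, inferInstance, _, h1, h2⟩
  · exact Or.inr ⟨_, Option (EC 𝔹 × Bool), inferInstance, _, h.1, h.2⟩

end Pool.Agent.H57.EQ
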