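import Pool.Agent.H57.EQ.Asm2
import Pool.Agent.H44.EQ.All
import Pool.Agent.H53.GC.FIN
import Pool.Agent.H18.GC.COR
import Pool.Agent.H18.GC.GEO
import Pool.Agent.H18.GC.LIM
import Pool.Agent.H18.GC.OMG
import Pool.Agent.H91.GC.MXV
import Pool.Agent.H91.GC.VAL
import Pool.Agent.H34.BPG.MXP
import Pool.Agent.H19.BPG.EX
import Pool.Agent.H19.BPG.NRM
import Pool.Agent.H19.BPG.UNI
import Pool.Agent.H55.GC.CNS
import Pool.Agent.H52.GC.K3L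
import Pool.Agent.H77.GC.SEL
import Pool.Agent.H68.GC.OLF
import Pool.Agent.H69.NR.CA2
import Pool.Agent.H58.CT.Final
import Pool.Agent.H3.EQ.BKG
import Pool.Agent.H3.EQ.CYF
import Pool.Agent.H13.EQ.CYP
import Pool.Agent.H37.EQ.ITR
import Pool.Agent.H55.EQ.DDX
import Pool.Agent.H59.EQ.SYS
import Pool.Agent.H63.EQM.CYC
import Pool.Agent.H81.EQ.GTM
import Pool.Agent.H88.EQ.NKC

/-!
# Structures over edge-coloured graphs with free amalgamation, with equality: all the parts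
-/

set_option autoImplicit false

namespace Pool.Agent.H57.EQ

open Pool.Agent.H68.BP Pool.Agent.H58.SF Pool.Agent.H53.GC Pool.Agent.H53.NR
open Function

theorem all_SEL : T_SEL := Pool.Agent.H77.GC.pf_SEL Pool.Agent.H52.GC.pf_K3L

theorem all_VAL : T_VAL := Pool.Agent.H91.GC.pf_VAL Pool.Agent.H19.BPG.pf_UNI

/-- an Olšák polymorphism of the template of the injective part -/
theorem all_OLI (hCPS : T_CPS) : ∀ (σ : Sig) (V X : Type) [LinearOrder V] (𝔸 : Str σ V) (M : ℕ)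
    (c : V → V → Option X) (fr : X), Stp 𝔸 M c fr → ∀ h, GoodMap (injS 𝔸) M (cD c fr) h →
    HasOlsak (template (injS 𝔸) M (cD c fr)) (template (injS 𝔸) M (cD c fr)) := by
  intro σ V X _ 𝔸 M c fr hs h hh
  exact asm_olsak Pool.Agent.H18.GC.pf_COR Pool.Agent.H18.GC.pf_OMG
    (pf_FIN Pool.Agent.H19.BPG.pf_NRM) (Pool.Agent.H68.GC.pf_OLF all_SEL)
    Pool.Agent.H18.GC.pf_GEO
    (Pool.Agent.H91.GC.pf_MXV all_VAL Pool.Agent.H55.GC.pf_CNS Pool.Agent.H19.BPG.pf_EX)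
    (Pool.Agent.H34.BPG.pf_MXP all_VAL Pool.Agent.H55.GC.pf_CNS Pool.Agent.H19.BPG.pf_EX)
    Pool.Agent.H18.GC.pf_LIM Pool.Agent.H69.NR.pf_CA2 Pool.Agent.H44.EQ.all_NR3 hCPS hs hh

/-- The template does not pp-construct `K₃`. -/
theorem all_tpl (hCPS : T_CPS) (hBKS : T_BKS) {σ : Sig} {V X : Type} [LinearOrder V]
    {𝔸 : Str σ V} {M : ℕ} {c : V → V → Option X} {fr : X} (hs : Stp 𝔸 M c fr) (hol : Oligo 𝔸)
    (hK : ¬ PPConstructsK3 𝔸) (hC : ¬ ConstHom 𝔸) : ¬ PPConstructsK3 (tpl 𝔸 M c) :=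
  asm_tpl Pool.Agent.H44.EQ.all_NOL Pool.Agent.H44.EQ.all_NNC hBKS Pool.Agent.H3.EQ.pf_BKG
    (all_OLI hCPS)
    (Pool.Agent.H63.EQM.pf_CYC (Pool.Agent.H3.EQ.pf_CYF Pool.Agent.H58.CT.cyclic_terms
      Pool.Agent.H18.GC.pf_COR)) Pool.Agent.H55.EQM.pf_DDX Pool.Agent.H44.EQ.all_NBV
    Pool.Agent.H81.EQM.pf_GTM Pool.Agent.H37.EQM.pf_ITR Pool.Agent.H13.EQ.pf_CYP
    (Pool.Agent.H88.EQM.pf_NKC all_SEL) hs hol hK hC

end Pool.Agent.H57.EQ
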