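import Pool.Agent.H53.NR.Targets

/-!
# Structures over edge-coloured graphs with free amalgamation, with equality: definitions
-/

set_option autoImplicit false

namespace Pool.Agent.H57.EQ

open Pool.Agent.H68.BP Pool.Agent.H58.SF Pool.Agent.H53.GC
open Function

section defs

variable {V X : Type} {σ : Sig}

/-- `c` is a symmetric colouring of the pairs of different elements, and all colours occur. -/
structure Col (c : V → V → Option X) : Prop where
  none_iff : ∀ x y, c x y = none ↔ x = y
  symm : ∀ x y, c x y = c y x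
  surj : ∀ t, ∃ x y, c x y = some t

/-- Universality: each finite linear order with colours of pairs embeds into `(V, <, c)` provided
that every set of at most `M` of its elements without pairs of the free colour `fr` is realized. -/
def Uni [LinearOrder V] (c : V → V → Option X) (fr : X) (M : ℕ) : Prop :=
  ∀ (n : ℕ) (d : Fin n → Fin n → X),
    (∀ (m : ℕ) (s : Fin m → Fin n), m ≤ M → StrictMono s → (∀ i j, i < j → d (s i) (s j) ≠ fr) →
      ∃ v : Fin m → V, ∀ i j, i < j → c (v i) (v j) = some (d (s i) (s j))) →
    ∃ f : Fin n → V, StrictMono f ∧ ∀ i j, i < j → c (f i) (f j) = some (d i j)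

/-- The relations of `𝔸` depend only on the colours (and equalities) of the tuples. -/
def TyInv (𝔸 : Str σ V) (c : V → V → Option X) : Prop :=
  ∀ (l : Fin σ.m) (x y : Fin (σ.ar l) → V), 𝔸 l x → (∀ a b, c (y a) (y b) = c (x a) (x b)) → 𝔸 l y

/-- the hypotheses -/
structure Stp [LinearOrder V] (𝔸 : Str σ V) (M : ℕ) (c : V → V → Option X) (fr : X) : Prop where
  fin : Finite X
  cnt : Countable V
  three : 3 ≤ M
  col : Col c
  uni : Uni c fr M
  inv : TyInv 𝔸 c

/-- `ψ` is a combination of the maps `G i`: it preserves the relations of `𝔸` which are preserved by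
all of them (for the tuples in `W`). -/
def Cx (𝔸 : Str σ V) {I W : Type} (G : I → W → V) (ψ : W → V) : Prop :=
  ∀ (l : Fin σ.m) (z : Fin (σ.ar l) → W), (∀ i, 𝔸 l (fun a => G i (z a))) → 𝔸 l (fun a => ψ (z a))

/-- All constant maps are endomorphisms of `𝔸`. -/
def ConstHom (𝔸 : Str σ V) : Prop :=
  ∀ (l : Fin σ.m) (x : Fin (σ.ar l) → V), 𝔸 l x → ∀ v : V, 𝔸 l (fun _ => v)

/-- `x` and `y` have the same type in `(V, <, c)`. -/
def Same [LinearOrder V] (c : V → V → Option X) {I : Type} (x y : I → V) : Prop :=
  ∀ i j, (x i < x j ↔ y i < y j) ∧ c (x i) (x j) = c (y i) (y j)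

/-- `h` gives the types of the pairs of values of a map from the sixth power of `V` to `V` which is
canonical and preserves `𝔸`, and it satisfies the identities of an Olšák function. -/
structure Olm [LinearOrder V] (𝔸 : Str σ V) (c : V → V → Option X)
    (h : (Fin 6 → V) → (Fin 6 → V) → Option X) : Prop where
  tinv : ∀ v w v' w' : Fin 6 → V, Same c (Sum.elim v w) (Sum.elim v' w') → h v w = h v' w'
  exact : ∀ (r : Fin 3) (x y x' y' : V),
    h (pat r x y) (pat r x' y') = h (pat 0 x y) (pat 0 x' y')
  comb : ∀ (W : Type) [Finite W] (G : Fin 6 → W → V), ∃ ψ : W → V, Cx 𝔸 G ψ ∧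
    ∀ u w, c (ψ u) (ψ w) = h (fun i => G i u) (fun i => G i w)

/-- `f` is cyclic, and injective maps have injective combinations with the colours given by `f`. -/
def Dd (𝔸 : Str σ V) (c : V → V → Option X) (p : ℕ) (f : (ZMod p → X) → X) : Prop :=
  (∀ q : ZMod p → X, f (fun i => q (i + 1)) = f q) ∧
  ∀ (W : Type) [Finite W] (G : ZMod p → W → V), (∀ i, Injective (G i)) →
    ∃ ψ : W → V, Injective ψ ∧ Cx 𝔸 G ψ ∧ ∀ (u w : W) (q : ZMod p → X),
      (∀ i, c (G i u) (G i w) = some (q i)) → c (ψ u) (ψ w) = some (f q)

/-- for all large primes there are cyclic functions -/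
def DdAll (𝔸 : Str σ V) (c : V → V → Option X) : Prop :=
  ∃ N : ℕ, ∀ p : ℕ, p.Prime → N < p → ∃ f, Dd 𝔸 c p f

/-- tournaments -/
def Tour (T : V → V → Bool) : Prop := ∀ x y, x ≠ y → T y x = !(T x y)

/-- linear orders -/
def LinT (T : V → V → Bool) : Prop :=
  Tour T ∧ ∀ x y z, x ≠ y → y ≠ z → x ≠ z → T x y = true → T y z = true → T x z = true

/-- Binary injections exist. -/
def BinInj (𝔸 : Str σ V) : Prop :=
  ∀ (W : Type) [Finite W] (G : Fin 2 → W → V), ∃ ψ : W → V, Cx 𝔸 G ψ ∧
    ∀ u w, ψ u = ψ w → ∀ i, G i u = G i w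

/-- the colour of a pair of values of a canonical binary injection -/
def bin (t2 : Bool → X → X → X) (t10 t01 : X → X) (e : Bool) : Option X → Option X → Option X
  | none, none => none
  | some a, none => some (t10 a)
  | none, some b => some (t01 b)
  | some a, some b => some (t2 e a b)

/-- The functions `t2`, `t10`, `t01` give the colours of a canonical binary injection, for all
tournaments with the property `P`. -/
def BV (P : (V → V → Bool) → Prop) (𝔸 : Str σ V) (c : V → V → Option X)
    (t2 : Bool → X → X → X) (t10 t01 : X → X) : Prop :=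
  ∀ (W : Type) [Finite W] (G : Fin 2 → W → V) (T : Fin 2 → V → V → Bool), (∀ i, P (T i)) →
    ∃ ψ : W → V, Cx 𝔸 G ψ ∧ ∀ u w, c (ψ u) (ψ w) =
      bin t2 t10 t01 (T 0 (G 0 u) (G 0 w) == T 1 (G 1 u) (G 1 w)) (c (G 0 u) (G 0 w))
        (c (G 1 u) (G 1 w))

/-- The finite template: the domain consists of `none` (equality) and of the pairs of a colour and a
sign. For each relation of `𝔸` and for the full relation of arity `M` it has a relation, which
consists of the patterns of the tuples of this relation and of tournaments. -/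
noncomputable def tpl (𝔸 : Str σ V) (M : ℕ) (c : V → V → Option X) :
    Str (sigOf (Option (Fin σ.m)) (fun s => Fin (arP σ M s) × Fin (arP σ M s)))
      (Option (X × Bool)) :=
  strOn fun s q => ∃ (x : Fin (arP σ M s) → V) (T : V → V → Bool), relP 𝔸 M s x ∧ Tour T ∧
    ∀ a b, q (a, b) = (c (x a) (x b)).map (fun t => (t, T (x a) (x b)))

/-! ### The injective part -/

/-- the symbols of the injective part: a relation and a map of its places onto `k` places -/
abbrev SI (σ : Sig) : Type := Σ (l : Fin σ.m) (k : Fin (σ.ar l + 1)), (Fin (σ.ar l) → Fin k)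

/-- the signature of the injective part -/
noncomputable def sigI (σ : Sig) : Sig :=
  ⟨Nat.card (SI σ), fun i => (((Finite.equivFin (SI σ)).symm i).2.1 : ℕ)⟩

/-- the injective part: the injective tuples in the relations of `𝔸`, with identification of
places -/
noncomputable def injS (𝔸 : Str σ V) : Str (sigI σ) V :=
  fun i y => Injective y ∧ 𝔸 ((Finite.equivFin (SI σ)).symm i).1
    (fun a => y (((Finite.equivFin (SI σ)).symm i).2.2 a))

/-- the colouring with values in `X`, where the diagonal has the free colour -/
def cD (c : V → V → Option X) (fr : X) (x y : V) : X := (c x y).getD fr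

end defs

end Pool.Agent.H57.EQ
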