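import Pool.Agent.H57.EQ.Asm
import Pool.Agent.H44.EQ.Glue

/-!
# Structures over edge-coloured graphs with free amalgamation, with equality: assembly
-/

set_option autoImplicit false

namespace Pool.Agent.H57.EQ

open Pool.Agent.H68.BP Pool.Agent.H58.SF Pool.Agent.H53.GC Pool.Agent.H53.NR
open Function

/-- The template does not pp-construct `K₃`. -/
theorem asm_tpl (hNOL : Pool.Agent.H44.EQ.T_NOL) (hNNC : Pool.Agent.H44.EQ.T_NNC)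
    (hBKS : T_BKS) (hBKG : T_BKG)
    (hOLI : ∀ (σ : Sig) (V X : Type) [LinearOrder V] (𝔸 : Str σ V) (M : ℕ)
      (c : V → V → Option X) (fr : X), Stp 𝔸 M c fr → ∀ h, GoodMap (injS 𝔸) M (cD c fr) h →
      HasOlsak (template (injS 𝔸) M (cD c fr)) (template (injS 𝔸) M (cD c fr)))
    (hCYC : T_CYC) (hDDX : T_DDX) (hNBV : Pool.Agent.H44.EQ.T_NBV) (hGTM : T_GTM)
    (hITR : T_ITR) (hCYP : T_CYP) (hNKC : T_NKC)
    {σ : Sig} {V X : Type} [LinearOrder V] {𝔸 : Str σ V} {M : ℕ} {c : V → V → Option X} {fr : X}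
    (hs : Stp 𝔸 M c fr) (hol : Oligo 𝔸) (hK : ¬ PPConstructsK3 𝔸) (hC : ¬ ConstHom 𝔸) :
    ¬ PPConstructsK3 (tpl 𝔸 M c) := by
  have := hs.fin
  obtain ⟨h, hO⟩ := hNOL σ V X 𝔸 M c fr hs hol hK
  obtain ⟨h', hb⟩ := hBKS σ V X 𝔸 M c fr hs h hO
  have hG := hBKG σ V X 𝔸 M c fr hs h h' hO (hNNC σ V X 𝔸 M c fr hs h hO hC) hb
  have hD : DdAll 𝔸 c := asm_dd hCYC hDDX hs (hOLI σ V X 𝔸 M c fr hs _ hG)
  obtain ⟨t2, t10, t01, hT⟩ := hNBV σ V X 𝔸 M c fr hs h hO hC hD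
  obtain ⟨N, hN⟩ := hD
  obtain ⟨p, hp1, hp2⟩ := Nat.exists_infinite_primes (N + 3)
  obtain ⟨f, hf⟩ := hN p hp2 (by omega)
  have : Fact p.Prime := ⟨hp2⟩
  have : NeZero p := ⟨hp2.ne_zero⟩
  obtain ⟨G, hG1, hG2⟩ := hITR _ _ (tpl 𝔸 M c) _ (hGTM σ V X 𝔸 M c fr hs t2 t10 t01 hT) (by
    intro z
    have key : ∀ a b : Option (X × Bool), gbin t2 t10 t01 a b = none ↔ a = none ∧ b = none := by
      rintro (_ | a) (_ | b) <;> simp [gbin]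
    rw [key]
    constructor
    · rintro ⟨h0, h1⟩ i
      fin_cases i
      · exact h0
      · exact h1
    · exact fun h => ⟨h 0, h 1⟩) (ZMod p)
  obtain ⟨u, hu1, hu2⟩ := hCYP σ V X 𝔸 M c fr hs p f hp2 (by omega) hf G hG1 hG2
  exact hNKC _ _ _ p u hp2 hu1 hu2

end Pool.Agent.H57.EQ
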