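import Pool.Agent.H57.EQD.BKS

/-!
# Systems of blocks: symmetric colours
-/

set_option autoImplicit false

namespace Pool.Agent.H57.EQ

open Pool.Agent.H68.BP

theorem stp_dir {σ : Sig} {V X : Type} [LinearOrder V] {𝔸 : Str σ V} {M : ℕ}
    {c : V → V → Option X} {fr : X} (hs : Stp 𝔸 M c fr) :
    Pool.Agent.H57.EQD.Stp 𝔸 M c fr id :=
  ⟨hs.fin, hs.cnt, hs.three, ⟨hs.col.none_iff, fun x y => by
    rw [Option.map_id, hs.col.symm]; rfl, hs.col.surj⟩, rfl, hs.uni, hs.inv⟩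

theorem pf_BKS : T_BKS := fun σ V X _ 𝔸 M c fr hs h hO =>
  Pool.Agent.H57.EQD.pf_BKS σ V X 𝔸 M c fr id (stp_dir hs) h hO

end Pool.Agent.H57.EQ
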