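import Pool.Agent.H92.EQ.TP

/-!
Row PMK of the board `eqd_modules`: the Markov property.
-/

namespace Pool.Agent.H57.EQ

open Pool.Agent.H92.EQ
open scoped BigOperators ComplexConjugate ContDiff Topology
open MeasureTheory

noncomputable section

theorem mixD_mul {ι : Type} [Fintype ι] [DecidableEq ι] {p m : ℕ} (c : ℂ)
    (S : (Fin p → ι) → (Fin p → ι) → ℂ) (H : Fin m → Matrix ι ι ℂ) :
    mixD (fun I J => c * S I J) H = c * mixD S H := by
  unfold mixD
  rw [Finset.mul_sum]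
  refine Finset.sum_congr rfl fun e _ => ?_
  rw [Finset.mul_sum]
  refine Finset.sum_congr rfl fun e' _ => ?_
  ring

theorem Q_mul {N p q : ℕ} (c : ℝ) (S S' : Form (Fin N) p) (u : Fin q → (Fin N → ℂ) → ℝ)
    (z : Fin N → ℂ) (h : S' z = fun I J => (c : ℂ) * S z I J) : Q S' u z = c * Q S u z := by
  unfold Q
  rw [h, mixD_mul, Complex.re_ofReal_mul]

theorem ae_ne {k : ℕ} : ∀ᵐ z : Fin (k + 1) → ℂ, z ≠ 0 := by
  rw [ae_iff]
  simp

theorem pair_congr {k p q : ℕ} (φ ψ : (Fin (k + 1) → ℂ) → ℝ) (S S' : Form (Fin (k + 1)) p)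
    (u u' : Fin q → (Fin (k + 1) → ℂ) → ℝ)
    (h : ∀ z, z ≠ 0 → φ z * Q S u z = ψ z * Q S' u' z) : pair φ S u = pair ψ S' u' := by
  unfold pair Iint
  refine integral_congr_ae (ae_restrict_of_ae ?_)
  filter_upwards [ae_ne] with z hz
  exact h z hz

theorem pair_form_mul {N p q : ℕ} (c : ℝ) (φ : (Fin N → ℂ) → ℝ) (S S' : Form (Fin N) p)
    (u : Fin q → (Fin N → ℂ) → ℝ) (h : ∀ z, S' z = fun I J => (c : ℂ) * S z I J) :
    pair φ S' u = c * pair φ S u := by
  unfold pair Iint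
  rw [← integral_const_mul]
  congr 1
  funext z
  show φ z * Q S' u z = c * (φ z * Q S u z)
  rw [Q_mul c S S' u z (h z)]
  ring

theorem hom0_bdd {N : ℕ} {φ : (Fin N → ℂ) → ℝ} (h : Hom0 φ) :
    ∃ B : ℝ, 0 ≤ B ∧ ∀ z, z ≠ 0 → |φ z| ≤ B := by
  have hc : IsCompact (Metric.sphere (0 : Fin N → ℂ) 1) := isCompact_sphere 0 1
  have hco : ContinuousOn φ (Metric.sphere (0 : Fin N → ℂ) 1) := by
    refine h.smooth.continuousOn.mono ?_
    intro z hz
    rw [Set.mem_compl_iff, Set.mem_singleton_iff]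
    rintro rfl
    simp at hz
  obtain ⟨B, hB⟩ := hc.exists_bound_of_continuousOn hco
  refine ⟨max B 0, le_max_right _ _, fun z hz => ?_⟩
  have hn : ‖z‖ ≠ 0 := norm_ne_zero_iff.2 hz
  have hl : ((‖z‖⁻¹ : ℝ) : ℂ) ≠ 0 := by
    exact_mod_cast inv_ne_zero hn
  have h1 := h.hom ((‖z‖⁻¹ : ℝ) : ℂ) z hl hz
  have h2 : ((‖z‖⁻¹ : ℝ) : ℂ) • z ∈ Metric.sphere (0 : Fin N → ℂ) 1 := by
    rw [mem_sphere_zero_iff_norm, norm_smul, Complex.norm_real, norm_inv, norm_norm]
    exact inv_mul_cancel₀ hn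
  have h3 := hB _ h2
  rw [h1, Real.norm_eq_abs] at h3
  exact h3.trans (le_max_left _ _)

theorem hom0_meas {k : ℕ} {φ : (Fin (k + 1) → ℂ) → ℝ} (h : Hom0 φ) :
    Measurable (fun z => if z = 0 then (0 : ℝ) else φ z) := by
  have h2 : (fun z => if z = 0 then (0 : ℝ) else φ z) =
      Set.piecewise ({0} : Set (Fin (k + 1) → ℂ)) (fun _ => (0 : ℝ)) φ := by
    funext z
    by_cases hz : z = 0
    · simp [hz]
    · simp [hz]
  rw [h2]
  exact ContinuousOn.measurable_piecewise continuousOn_const h.smooth.continuousOn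
    (measurableSet_singleton _)

theorem Sn_dens {k : ℕ} (F : Fin (k + 1) → MvPolynomial (Fin (k + 1)) ℂ) (d L : ℕ)
    (g : (Fin (k + 1) → ℂ) → ℝ) (S : Form (Fin (k + 1)) k) (z : Fin (k + 1) → ℂ) :
    Sn F d L (dens g S) z = fun I J => ((g (ev (iter F L) z) : ℝ) : ℂ) * Sn F d L S z I J := by
  funext I J
  unfold Sn pull dens
  rw [mul_left_comm]
  congr 1
  rw [Finset.mul_sum]
  refine Finset.sum_congr rfl fun I' _ => ?_
  rw [Finset.mul_sum]
  refine Finset.sum_congr rfl fun J' _ => ?_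
  ring

theorem pf_PMK (hG4 : T_G4) (hD12 : T_D12) (hP1 : T_P1) (hP3 : T_P3) (hP5 : T_P5) :
    T_PMK := by
  intro k d L l F σ hd hF hσ
  have hd1 : 1 ≤ d := by omega
  have hd0 : (d : ℝ) ≠ 0 := by exact_mod_cast (by omega : d ≠ 0)
  have hSL : ProjForm (Sn F d L σ) := (hD12 _ d F hd1 hF 0 L).2.2.2.2 k σ hσ
  have hitl := (hD12 _ d F hd1 hF 0 l).1
  have part1 : ∀ (φ : (Fin (k + 1) → ℂ) → ℝ) (B : ℝ), Measurable φ → (∀ z, |φ z| ≤ B) →
      (∀ (c : ℂ) (z : Fin (k + 1) → ℂ), c ≠ 0 → z ≠ 0 → φ (c • z) = φ z) →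
      EE F d (L + l) σ (fun x => φ (ev (iter F l) x)) = EE F d L σ φ := by
    intro φ B hm hB hh
    have h4 := hG4 (k + 1) k 0 (d ^ l) (iter F l) (Sn F d L σ) (fun _ => ell) (fun _ => 0) φ B
      rfl (Nat.one_le_pow _ _ hd1) hitl hSL (fun j => j.elim0) hm hB hh
    have hu : (fun (j : Fin 0) (z : Fin (k + 1) → ℂ) =>
        (fun _ : Fin 0 => (ell : (Fin (k + 1) → ℂ) → ℝ)) j (ev (iter F l) z)) =
        (fun _ : Fin 0 => (ell : (Fin (k + 1) → ℂ) → ℝ)) := by
      funext j; exact j.elim0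
    have h4' : pair (fun z => φ (ev (iter F l) z)) (pull (iter F l) (Sn F d L σ))
        (fun _ : Fin 0 => ell) = ((d ^ l : ℕ) : ℝ) ^ (k + 1 - 1) *
        pair φ (Sn F d L σ) (fun _ : Fin 0 => ell) := by
      rw [← h4]
      congr 1
      funext j; exact j.elim0
    unfold EE
    rw [pair_form_mul (((d : ℝ) ^ (k * l))⁻¹) (fun x => φ (ev (iter F l) x))
      (pull (iter F l) (Sn F d L σ)) (Sn F d (L + l) σ) _ ?_, h4']
    · rw [← mul_assoc]
      have : ((d : ℝ) ^ (k * l))⁻¹ * ((d ^ l : ℕ) : ℝ) ^ (k + 1 - 1) = 1 := by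
        rw [Nat.add_sub_cancel]
        push_cast
        rw [← pow_mul, mul_comm l k]
        exact inv_mul_cancel₀ (pow_ne_zero _ hd0)
      rw [this, one_mul]
    · intro z
      rw [(hD12 _ d F hd1 hF L l).2.2.2.1 k σ z]
      funext I J
      unfold Sn
      push_cast
      rfl
  refine ⟨part1, ?_, ?_, ?_, ?_, ?_⟩
  · intro φ hφ
    obtain ⟨B, hB0, hB⟩ := hom0_bdd hφ
    have h1 := part1 (fun z => if z = 0 then (0 : ℝ) else φ z) B (hom0_meas hφ)
      (by
        intro z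
        by_cases hz : z = 0
        · simp [hz, hB0]
        · simp only [hz, if_false]
          exact hB z hz)
      (by
        intro c z hc hz
        have hcz : c • z ≠ 0 := smul_ne_zero hc hz
        simp only [hz, hcz, if_false]
        exact hφ.hom c z hc hz)
    have h2 : EE F d (L + l) σ (fun x => φ (ev (iter F l) x)) =
        EE F d (L + l) σ (fun x => (fun z => if z = 0 then (0 : ℝ) else φ z)
          (ev (iter F l) x)) := by
      unfold EE
      apply pair_congr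
      intro z hz
      have hz' : ev (iter F l) z ≠ 0 := fun h => hz (hitl.nd z h)
      simp only [hz', if_false]
    have h3 : EE F d L σ φ = EE F d L σ (fun z => if z = 0 then (0 : ℝ) else φ z) := by
      unfold EE
      apply pair_congr
      intro z hz
      simp only [hz, if_false]
    rw [h2, h3]
    exact h1
  · intro g Ψ
    unfold EE
    apply pair_congr
    intro z _
    have h12 := (hD12 _ d F hd1 hF l L).2.2.2.1 k σ z
    have e1 : Sn F d L (dens g (Sn F d l σ)) z =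
        fun I J => ((g (ev (iter F L) z) : ℝ) : ℂ) * Sn F d (l + L) σ z I J := by
      rw [Sn_dens, h12]
    rw [Q_mul (g (ev (iter F L) z)) (Sn F d (l + L) σ) _ _ z e1]
    ring
  · intro g
    unfold mass EE
    apply pair_congr
    intro z _
    rw [Q_mul (g z) (Sn F d l σ) (dens g (Sn F d l σ)) _ z rfl]
    ring
  · intro φ ψ hφ hψ hle
    unfold EE pair Iint
    have hP := (hP1 (k + 1) k 0 (Sn F d L σ) (fun _ => ell) (fun _ => 0) rfl hSL
      (fun j => j.elim0)).2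
    refine integral_mono_ae (hP φ hφ.smooth.continuousOn) (hP ψ hψ.smooth.continuousOn) ?_
    refine ae_restrict_of_ae ?_
    filter_upwards [ae_ne] with z hz
    exact mul_le_mul_of_nonneg_right (hle z hz)
      ((hP3 (k + 1) k 0 (Sn F d L σ) (fun _ => ell) rfl hSL (fun j => j.elim0)).1 z hz)
  · exact (hP5 (k + 1) k 0 d σ rfl hσ).2.1 F L hd1 hF

end

end Pool.Agent.H57.EQ
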